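import Pool.Agent.COV.StmtsA

/-!
# Squad COV, row NOB (MP_160b6c_nt): a differential of the first kind is not exact
-/

set_option autoImplicit false

namespace Pool.Agent.COV.H77

open Polynomial Pool.Agent.COV

variable {k : Type} [Field k] [IsAlgClosed k] [CharZero k]

/-- constant denominator -/
theorem nob0 (f s N : k[X]) (c : k) (hf : f.natDegree = 5) (hs : s ≠ 0) (hs1 : s.natDegree ≤ 1)
    (hc : c ≠ 0)
    (h : 2 * s * (C c) ^ 2 = derivative f * N * C c + 2 * f * (derivative N * C c -
      N * derivative (C c))) : False := by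
  rw [derivative_C] at h
  have hCc : (C c : k[X]) ≠ 0 := C_ne_zero.2 hc
  have h1 : 2 * s * C c = derivative f * N + 2 * (f * derivative N) := by
    refine mul_right_cancel₀ hCc ?_
    linear_combination h
  have hN : N ≠ 0 := by
    rintro rfl
    rw [derivative_zero] at h1
    have h2 : (2 : k[X]) * s * C c = 0 := by
      rw [h1]
      ring
    have h3 : (2 : k[X]) ≠ 0 := two_ne_zero
    exact (mul_ne_zero (mul_ne_zero h3 hs) hCc) h2
  have hlf : f.coeff 5 ≠ 0 := by
    have h2 : f ≠ 0 := by
      rintro rfl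
      simp at hf
    rw [← hf]
    exact leadingCoeff_ne_zero.2 h2
  have hlN : N.coeff N.natDegree ≠ 0 := leadingCoeff_ne_zero.2 hN
  have hdf : (derivative f).natDegree ≤ 4 := by
    have := natDegree_derivative_le f
    omega
  have e1 : (derivative f * N).coeff (4 + N.natDegree) =
      5 * f.coeff 5 * N.coeff N.natDegree := by
    rw [coeff_mul_add_eq_of_natDegree_le hdf (le_refl _), coeff_derivative]
    push_cast
    ring
  have e2 : (f * derivative N).coeff (4 + N.natDegree) =
      N.natDegree * f.coeff 5 * N.coeff N.natDegree := by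
    rcases Nat.eq_zero_or_pos N.natDegree with h0 | h0
    · have h2 : derivative N = 0 := by
        rw [eq_C_of_natDegree_eq_zero h0, derivative_C]
      rw [h2, h0]
      simp
    · obtain ⟨j, hj⟩ : ∃ j, N.natDegree = j + 1 := ⟨N.natDegree - 1, by omega⟩
      have h2 : (derivative N).natDegree ≤ j := by
        have := natDegree_derivative_le N
        omega
      have h3 : 4 + N.natDegree = 5 + j := by omega
      rw [h3, coeff_mul_add_eq_of_natDegree_le (le_of_eq hf) h2, coeff_derivative, hj]
      push_cast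
      ring
  have e3 : (2 * s * C c).coeff (4 + N.natDegree) = 0 := by
    refine coeff_eq_zero_of_natDegree_lt ?_
    refine lt_of_le_of_lt (natDegree_mul_C_le _ _) ?_
    have h2 : (2 * s : k[X]) = C 2 * s := by
      rw [show (C (2 : k) : k[X]) = 2 from rfl]
    rw [h2]
    refine lt_of_le_of_lt (natDegree_C_mul_le _ _) ?_
    omega
  have e4 : (2 * (f * derivative N)).coeff (4 + N.natDegree) =
      2 * (f * derivative N).coeff (4 + N.natDegree) := by
    have h2 : (2 * (f * derivative N) : k[X]) = C 2 * (f * derivative N) := by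
      rw [show (C (2 : k) : k[X]) = 2 from rfl]
    rw [h2, coeff_C_mul]
  have h5 := congrArg (fun p : k[X] => p.coeff (4 + N.natDegree)) h1
  simp only [coeff_add] at h5
  rw [e3, e4, e1, e2] at h5
  have h6 : ((5 + 2 * N.natDegree : ℕ) : k) * (f.coeff 5 * N.coeff N.natDegree) = 0 := by
    push_cast
    linear_combination -h5
  rcases mul_eq_zero.1 h6 with h7 | h7
  · have h8 : (5 + 2 * N.natDegree : ℕ) = 0 := by exact_mod_cast h7
    omega
  · exact (mul_ne_zero hlf hlN) h7

/-- the numerator is zero at a root of the denominator -/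
theorem nob1 (f s N D : k[X]) (hsq : Squarefree f) (hD : D ≠ 0) (a : k) (ha : D.IsRoot a)
    (h : 2 * s * D ^ 2 = derivative f * N * D + 2 * f * (derivative N * D - N * derivative D)) :
    N.eval a = 0 := by
  by_contra hNa
  obtain ⟨E, hE, hE2⟩ := exists_eq_pow_rootMultiplicity_mul_and_not_dvd D hD a
  have hm : 0 < D.rootMultiplicity a := (rootMultiplicity_pos hD).2 ha
  obtain ⟨m, hm2⟩ : ∃ m, D.rootMultiplicity a = m + 1 := ⟨D.rootMultiplicity a - 1, by omega⟩
  rw [hm2] at hE
  have hEa : E.eval a ≠ 0 := fun h0 => hE2 (dvd_iff_isRoot.2 h0)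
  have hX : (X - C a : k[X]) ≠ 0 := X_sub_C_ne_zero a
  have hdX : derivative (X - C a : k[X]) = 1 := by simp
  have hD' : derivative D = (X - C a) ^ m * (((m + 1 : ℕ) : k[X]) * E + (X - C a) * derivative E) := by
    rw [hE, derivative_mul, derivative_pow, hdX, Nat.add_sub_cancel]
    simp only [map_natCast]
    ring
  have h1 : 2 * s * ((X - C a) ^ (m + 2) * E ^ 2) = (X - C a) * E * (derivative f * N +
      2 * f * derivative N) - 2 * f * N * (((m + 1 : ℕ) : k[X]) * E + (X - C a) * derivative E) := by
    refine mul_left_cancel₀ (pow_ne_zero m hX) ?_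
    rw [hD', hE] at h
    linear_combination h
  have h2 := congrArg (fun p : k[X] => p.eval a) h1
  have hfa : f.eval a = 0 := by
    simp only [eval_mul, eval_sub, eval_add, eval_pow, eval_X, eval_C, sub_self, zero_mul,
      eval_natCast, eval_ofNat] at h2
    rw [zero_pow (by omega), zero_mul, mul_zero] at h2
    have h3 : f.eval a * (2 * N.eval a * (((m + 1 : ℕ) : k) * E.eval a)) = 0 := by
      linear_combination h2
    rcases mul_eq_zero.1 h3 with h4 | h4
    · exact h4
    · exfalso
      have h5 : ((m + 1 : ℕ) : k) ≠ 0 := by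
        exact_mod_cast (Nat.succ_ne_zero m)
      exact (mul_ne_zero (mul_ne_zero two_ne_zero hNa) (mul_ne_zero h5 hEa)) h4
  obtain ⟨g, hg⟩ := dvd_iff_isRoot.2 hfa
  have hga : g.eval a ≠ 0 := by
    intro h0
    obtain ⟨g', hg'⟩ := dvd_iff_isRoot.2 h0
    have h3 : IsUnit (X - C a : k[X]) := hsq _ ⟨g', by rw [hg, hg']; ring⟩
    exact (not_isUnit_X_sub_C a) h3
  have hf' : derivative f = g + (X - C a) * derivative g := by
    rw [hg, derivative_mul, hdX, one_mul]
  have h3 : 2 * s * ((X - C a) ^ (m + 1) * E ^ 2) = E * ((g + (X - C a) * derivative g) * N +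
      2 * ((X - C a) * g) * derivative N) - 2 * g * N * (((m + 1 : ℕ) : k[X]) * E +
        (X - C a) * derivative E) := by
    refine mul_left_cancel₀ hX ?_
    rw [hf', hg] at h1
    linear_combination h1
  have h4 := congrArg (fun p : k[X] => p.eval a) h3
  simp only [eval_mul, eval_sub, eval_add, eval_pow, eval_X, eval_C, sub_self, zero_mul,
    eval_natCast, eval_ofNat] at h4
  rw [zero_pow (by omega), zero_mul, mul_zero] at h4
  have h5 : ((2 * m + 1 : ℕ) : k) * (g.eval a * (N.eval a * E.eval a)) = 0 := by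
    push_cast at h4 ⊢
    linear_combination h4
  have h6 : ((2 * m + 1 : ℕ) : k) ≠ 0 := by
    exact_mod_cast (Nat.succ_ne_zero (2 * m))
  exact (mul_ne_zero h6 (mul_ne_zero hga (mul_ne_zero hNa hEa))) h5

theorem nob2 (f s : k[X]) (hf : f.natDegree = 5) (hsq : Squarefree f) (hs : s ≠ 0)
    (hs1 : s.natDegree ≤ 1) : ∀ (n : ℕ) (N D : k[X]), D.natDegree = n → D ≠ 0 →
      2 * s * D ^ 2 = derivative f * N * D + 2 * f * (derivative N * D - N * derivative D) →
        False := by
  intro n
  induction n with
  | zero =>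
    intro N D hn hD h
    rw [eq_C_of_natDegree_eq_zero hn] at h
    refine nob0 f s N (D.coeff 0) hf hs hs1 ?_ h
    intro h0
    apply hD
    rw [eq_C_of_natDegree_eq_zero hn, h0, C_0]
  | succ n ih =>
    intro N D hn hD h
    have hdeg : D.degree ≠ 0 := by
      rw [degree_eq_natDegree hD, hn]
      exact_mod_cast (Nat.succ_ne_zero n)
    obtain ⟨a, ha⟩ := IsAlgClosed.exists_root D hdeg
    have hNa := nob1 f s N D hsq hD a ha h
    obtain ⟨N2, hN2⟩ := dvd_iff_isRoot.2 hNa
    obtain ⟨D2, hD2⟩ := dvd_iff_isRoot.2 ha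
    have hX : (X - C a : k[X]) ≠ 0 := X_sub_C_ne_zero a
    have hdX : derivative (X - C a : k[X]) = 1 := by simp
    have hD20 : D2 ≠ 0 := by
      rintro rfl
      exact hD (by rw [hD2, mul_zero])
    refine ih N2 D2 ?_ hD20 ?_
    · rw [hD2, natDegree_mul hX hD20, natDegree_X_sub_C] at hn
      omega
    · refine mul_left_cancel₀ (pow_ne_zero 2 hX) ?_
      rw [hN2, hD2, derivative_mul, derivative_mul, hdX] at h
      linear_combination h

theorem nob : NobStmt := by
  intro k _ _ _ f s N D hf hsq hs hs1 hD h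
  exact nob2 f s hf hsq hs hs1 D.natDegree N D rfl hD h

end Pool.Agent.COV.H77
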